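import Pool.Agent.Y934.BEF.Main
import Pool.Agent.Y286.BEF.NF
import Pool.Agent.Y759.BEF.Dens
import Pool.Agent.Y239.BEF.Ratio
import Pool.Agent.Y239.BEF.Col
import Pool.Agent.Y758.BEF.Dom
import Pool.Agent.Y905.BEF.Two
import Pool.Agent.Y761.BEF.Conf
import Pool.Agent.Y317.BEF.Count

/-!
# Hermite Gabor systems which are not frames, at every density below `3n + 1`

The earlier result `HermiteNonFrame` gives, for every `n ≥ 1`, a periodic set of density exactly
`2n + 1` over which the Gabor system of the `n`-th Hermite function is not a frame. Here: every
density below `3n + 1` is exceeded.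

The sets are zero sets of the transforms of weighted Dirac combs `∑ c_m δ_{mg}` with three points
per period: a strong point, and two weak points, which are close to each other and far from the
strong ones. Near every point of the comb each zero of `h_n` gives rise to `2d` zeros per unit
of normalised frequency, where `d` is the distance to the second strongest point; for all three
points this is the distance between strong and weak points, about one half of the period. The
zeros between neighbouring points contribute one more zero per unit area. The points are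
asymptotic (as `g` tends to infinity), so that everything reduces to the comparison of Gaussian
exponents and to the planar theorem of Poincaré and Miranda. Parts of the proof were written by
helper286, helper759, helper239, helper758, helper905, helper761 and helper317; the starting files
of `Pool/Agent/H321R3/` and `Pool/Agent/Helper577/` are used.
-/

set_option autoImplicit false

namespace Pool.Agent.Results.MP_bef260_an.DensityThreeNPlusOne

open Pool.Agent.H321R3.Herm Pool.Agent.Y934.BEF

/-- For every `n ≥ 1` and every `D < 3n + 1` there is a periodic configuration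
`Γ = ⋃ i, (x i, ω i) + (A ℤ × B ℤ)`, a union of `N` disjoint cosets, which is separated and whose
(lower Beurling) density `N / (A B)` is larger than `D` and larger than `n + 1`, such that the Gabor
system of the `n`-th Hermite function over `Γ` is not a frame. -/
theorem result : ∀ n : ℕ, 1 ≤ n → ∀ D : ℝ, D < 3 * (n : ℝ) + 1 →
    ∃ (A B : ℝ) (N : ℕ) (x ω : Fin N → ℝ), 0 < A ∧ 0 < B ∧ IsSeparatedSet (cos2 A B x ω) ∧
      lowerBeurlingDensity (cos2 A B x ω) = (N : ℝ) / (A * B) ∧
      D < lowerBeurlingDensity (cos2 A B x ω) ∧
      (n : ℝ) + 1 < lowerBeurlingDensity (cos2 A B x ω) ∧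
      ¬ IsGaborFrame (fun t => ((hermiteFun n t : ℝ) : ℂ)) (cos2 A B x ω) := by
  intro n hn D hD
  have hn1 : (1 : ℝ) ≤ n := by exact_mod_cast hn
  have hmax : max D ((n : ℝ) + 1) < 3 * (n : ℝ) + 1 := max_lt hD (by linarith)
  obtain ⟨A, B, N, x, ω, hA, hB, hs, hd, hD', hf⟩ :=
    main Pool.Agent.Y286.BEF.nf Pool.Agent.Y759.BEF.dens
      (Pool.Agent.Y239.BEF.colA Pool.Agent.Y239.BEF.ratio Pool.Agent.Y758.BEF.domA
        Pool.Agent.Y905.BEF.twoA)
      (Pool.Agent.Y239.BEF.colB Pool.Agent.Y239.BEF.ratio Pool.Agent.Y758.BEF.domB
        Pool.Agent.Y905.BEF.twoB)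
      Pool.Agent.Y761.BEF.conf Pool.Agent.Y317.BEF.count n _ hmax
  exact ⟨A, B, N, x, ω, hA, hB, hs, hd, (le_max_left _ _).trans_lt hD',
    (le_max_right _ _).trans_lt hD', hf⟩

end Pool.Agent.Results.MP_bef260_an.DensityThreeNPlusOne
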